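import Mathlib

set_option autoImplicit false

namespace Pool.Agent.Results.MP_4e92f2_gt.NotMinimal
open Set Filter Topology

/-- The three collapsed points. -/
def A : Set EReal := {⊥, 0, ⊤}

/-- Identify the points of `A`. -/
def rel : Setoid EReal where
  r x y := x = y ∨ (x ∈ A ∧ y ∈ A)
  iseqv := ⟨fun _ => Or.inl rfl, fun h => h.imp Eq.symm And.symm, by
    rintro x y z (rfl | h) (rfl | h')
    · exact Or.inl rfl
    · exact Or.inr h'
    · exact Or.inr h
    · exact Or.inr ⟨h.1, h'.2⟩⟩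

/-- The collapsed extended line. -/
def X0 : Type := Quotient rel

/-- The projection. -/
def q (x : EReal) : X0 := Quotient.mk rel x

/-- The topology of the problem. -/
@[reducible] def tau : TopologicalSpace X0 where
  IsOpen U := IsOpen (q ⁻¹' U) ∧ (q 0 ∈ U → Dense (q ⁻¹' U))
  isOpen_univ := ⟨isOpen_univ, fun _ => dense_univ⟩
  isOpen_inter := fun _ _ hU hV =>
    ⟨hU.1.inter hV.1, fun h => (hU.2 h.1).inter_of_isOpen_left (hV.2 h.2) hU.1⟩
  isOpen_sUnion := fun S hS => ⟨by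
      rw [preimage_sUnion]; exact isOpen_biUnion fun U hU => (hS U hU).1,
    fun ⟨U, hU, h⟩ => ((hS U hU).2 h).mono (preimage_mono (subset_sUnion_of_mem hU))⟩

/-- Uniqueness of limits of sequences. -/
def US {X : Type} (t : TopologicalSpace X) : Prop :=
  ∀ (x : ℕ → X) (a b : X), Tendsto x atTop (@nhds X t a) → Tendsto x atTop (@nhds X t b) → a = b

@[reducible] def tau' : TopologicalSpace X0 where
  IsOpen U := IsOpen (q ⁻¹' U) ∧ (q 0 ∈ U → (q ⁻¹' U)ᶜ.Countable)
  isOpen_univ := ⟨isOpen_univ, fun _ => by simp⟩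
  isOpen_inter := fun _ _ hU hV =>
    ⟨hU.1.inter hV.1, fun h => by
      rw [preimage_inter, compl_inter]; exact (hU.2 h.1).union (hV.2 h.2)⟩
  isOpen_sUnion := fun S hS => ⟨by
      rw [preimage_sUnion]; exact isOpen_biUnion fun U hU => (hS U hU).1,
    fun ⟨U, hU, h⟩ => ((hS U hU).2 h).mono
      (compl_subset_compl.2 (preimage_mono (subset_sUnion_of_mem hU)))⟩

theorem q_eq {x y : EReal} : q x = q y ↔ x = y ∨ (x ∈ A ∧ y ∈ A) := Quotient.eq (r := rel)

theorem q_surj (a : X0) : ∃ x, q x = a := Quotient.exists_rep a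

theorem A_fin : A.Finite := toFinite ({⊥, 0, ⊤} : Set EReal)

theorem zero_mem : (0 : EReal) ∈ A := Or.inr (Or.inl rfl)

theorem pre_im {W : Set EReal} (h : ∀ x ∈ W, x ∉ A) : q ⁻¹' (q '' W) = W := by
  refine Subset.antisymm ?_ (subset_preimage_image q W)
  rintro x ⟨y, hy, e⟩
  rcases q_eq.1 e with rfl | h'
  · exact hy
  · exact absurd h'.1 (h y hy)

theorem not_star {W : Set EReal} (h : ∀ x ∈ W, x ∉ A) : q 0 ∉ q '' W := fun h0 =>
  h 0 ((pre_im h).le h0) zero_mem

theorem open_im {W : Set EReal} (hW : IsOpen W) (h : ∀ x ∈ W, x ∉ A) : IsOpen[tau'] (q '' W) :=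
  ⟨by rw [pre_im h]; exact hW, fun h0 => absurd h0 (not_star h)⟩

theorem lift {x : ℕ → X0} {α : EReal} (hα : α ∉ A) (hx : Tendsto x atTop (@nhds X0 tau' (q α)))
    {y : ℕ → EReal} (hy : ∀ n, q (y n) = x n) : Tendsto y atTop (𝓝 α) := by
  let _i := tau'
  rw [tendsto_nhds]
  intro W hW hαW
  have h1 : ∀ z ∈ W ∩ Aᶜ, z ∉ A := fun z hz => hz.2
  have := hx ((open_im (hW.inter A_fin.isClosed.isOpen_compl) h1).mem_nhds ⟨α, ⟨hαW, hα⟩, rfl⟩)
  filter_upwards [this] with n hn
  have h2 : y n ∈ q ⁻¹' (q '' (W ∩ Aᶜ)) := by rw [mem_preimage, hy]; exact hn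
  rw [pre_im h1] at h2
  exact h2.1

theorem star_case {x : ℕ → X0} {α : EReal} (hα : α ∉ A)
    (hx : Tendsto x atTop (@nhds X0 tau' (q α))) (h0 : Tendsto x atTop (@nhds X0 tau' (q 0))) :
    False := by
  let _i := tau'
  choose y hy using fun n => q_surj (x n)
  have h1 := lift hα hx hy
  obtain ⟨N, hN⟩ := eventually_atTop.1 (h1 (A_fin.isClosed.isOpen_compl.mem_nhds hα))
  have h2 : Tendsto (fun n => y (n + N)) atTop (𝓝 α) := h1.comp (tendsto_add_atTop_nat N)
  have h3 : ∀ z ∈ insert α (range fun n => y (n + N)), z ∉ A := by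
    rintro _ (rfl | ⟨n, rfl⟩)
    · exact hα
    · exact hN _ (Nat.le_add_left N n)
  have h4 : IsOpen[tau'] (q '' insert α (range fun n => y (n + N)))ᶜ :=
    ⟨by rw [preimage_compl, pre_im h3]; exact h2.isCompact_insert_range.isClosed.isOpen_compl,
      fun _ => by
        rw [preimage_compl, compl_compl, pre_im h3]; exact (countable_range _).insert _⟩
  obtain ⟨M, hM⟩ := eventually_atTop.1 (h0 (h4.mem_nhds (not_star h3)))
  exact hM (M + N) (Nat.le_add_right M N) ⟨y (M + N), Or.inr ⟨M, rfl⟩, hy _⟩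

theorem us : US tau' := by
  intro x a b ha hb
  obtain ⟨α, rfl⟩ := q_surj a
  obtain ⟨β, rfl⟩ := q_surj b
  by_cases hα : α ∈ A <;> by_cases hβ : β ∈ A
  · exact q_eq.2 (Or.inr ⟨hα, hβ⟩)
  · rw [q_eq.2 (Or.inr ⟨hα, zero_mem⟩)] at ha
    exact (star_case hβ hb ha).elim
  · rw [q_eq.2 (Or.inr ⟨hβ, zero_mem⟩)] at hb
    exact (star_case hα ha hb).elim
  · choose y hy using fun n => q_surj (x n)
    rw [tendsto_nhds_unique (lift hα ha hy) (lift hβ hb hy)]

theorem t1 : @T1Space X0 tau' := by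
  let _i := tau'
  refine ⟨fun a => ⟨?_⟩⟩
  obtain ⟨α, rfl⟩ := q_surj a
  have h : (q ⁻¹' {q α}).Finite := (A_fin.insert α).subset fun x hx =>
    (q_eq.1 hx).imp id And.left
  exact ⟨by rw [preimage_compl]; exact h.isClosed.isOpen_compl,
    fun _ => by rw [preimage_compl, compl_compl]; exact h.countable⟩

theorem dense_of {S : Set EReal} (h : Dense (Real.toEReal ⁻¹' S)) : Dense S := by
  have h1 : DenseRange Real.toEReal :=
    EReal.denseRange_ratCast.mono (by rintro _ ⟨r, rfl⟩; exact ⟨r, rfl⟩)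
  exact (h1.dense_image continuous_coe_real_ereal h).mono (image_preimage_subset _ _)

theorem coarser (U : Set X0) (hU : IsOpen[tau'] U) : IsOpen[tau] U := by
  refine ⟨hU.1, fun h => dense_of ?_⟩
  have := ((hU.2 h).preimage EReal.coe_injective).dense_compl ℝ
  rwa [preimage_compl, compl_compl] at this

theorem ne : tau' ≠ tau := by
  intro e
  obtain ⟨U, hU, hUo, hv⟩ := (range ((↑) : ℚ → ℝ)).exists_isOpen_lt_of_lt (μ := MeasureTheory.volume)
    1 (by rw [(countable_range _).measure_zero]; exact zero_lt_one)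
  have hC : IsCompact (Icc (1 : ℝ) 2 \ U) := isCompact_Icc.diff hUo
  have h3 : ∀ z ∈ Real.toEReal '' (Icc (1 : ℝ) 2 \ U), z ∉ A := by
    rintro _ ⟨r, hr, rfl⟩ (h | h | h)
    · exact EReal.coe_ne_bot r h
    · have : r = 0 := EReal.coe_injective h
      linarith [hr.1.1]
    · exact EReal.coe_ne_top r h
  have h4 : IsOpen[tau] (q '' (Real.toEReal '' (Icc (1 : ℝ) 2 \ U)))ᶜ := by
    refine ⟨?_, fun _ => dense_of ?_⟩
    · rw [preimage_compl, pre_im h3]
      exact (hC.image continuous_coe_real_ereal).isClosed.isOpen_compl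
    · rw [preimage_compl, pre_im h3, preimage_compl, preimage_image_eq _ EReal.coe_injective]
      exact Rat.denseRange_cast.mono fun x hx h => h.2 (hU hx)
  rw [← e] at h4
  have h5 := h4.2 (not_star h3)
  rw [preimage_compl, compl_compl, pre_im h3] at h5
  have h6 : (Icc (1 : ℝ) 2 \ U).Countable :=
    (h5.preimage EReal.coe_injective).mono (subset_preimage_image _ _)
  have h7 : MeasureTheory.volume (Icc (1 : ℝ) 2) ≤ MeasureTheory.volume U := by
    calc _ ≤ MeasureTheory.volume ((Icc (1 : ℝ) 2 \ U) ∪ U) :=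
          MeasureTheory.measure_mono (subset_sdiff_union _ _)
      _ ≤ MeasureTheory.volume (Icc (1 : ℝ) 2 \ U) + MeasureTheory.volume U :=
          MeasureTheory.measure_union_le _ _
      _ = _ := by rw [h6.measure_zero, zero_add]
  rw [Real.volume_Icc] at h7
  norm_num at h7
  exact absurd hv (not_lt.2 h7)

theorem result : ∃ t : TopologicalSpace X0,
    (∀ U : Set X0, @IsOpen X0 t U → @IsOpen X0 tau U) ∧ t ≠ tau ∧ @T1Space X0 t ∧ US t :=
  ⟨tau', coarser, ne, t1, us⟩

end Pool.Agent.Results.MP_4e92f2_gt.NotMinimal
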